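import Pool.Agent.P.MP_32bf8a_an.PR3.Frame

/-!
Frames with `n + 3 k - 3 - α` vectors allowing `k`-sparse complex phase retrieval, where `α` is
the number of ones in the binary expansion of `k - 1`.
-/

namespace Pool.Agent.Results.MP_32bf8a_an.BinaryFrame

/-- `f` allows `k`-sparse phase retrieval: vectors with at most `k` nonzero coordinates and the
same moduli of frame coefficients agree up to a global phase. -/
def SparsePR {n N : ℕ} (k : ℕ) (f : Fin N → EuclideanSpace ℂ (Fin n)) : Prop :=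
  ∀ x y : EuclideanSpace ℂ (Fin n), (Finset.univ.filter fun i => x i ≠ 0).card ≤ k →
    (Finset.univ.filter fun i => y i ≠ 0).card ≤ k →
    (∀ j, ‖inner ℂ (f j) x‖ = ‖inner ℂ (f j) y‖) → ∃ c : ℂ, ‖c‖ = 1 ∧ x = c • y

open Pool.Agent.P.MP_32bf8a_an.PR in
theorem result (n k : ℕ) (hk : 1 ≤ k) (hn : k ≤ n) :
    ∃ f : Fin (n + 3 * k - 3 - (Nat.digits 2 (k - 1)).sum) → EuclideanSpace ℂ (Fin n),
      Submodule.span ℂ (Set.range f) = ⊤ ∧ SparsePR k f := by
  obtain ⟨D, rfl⟩ : ∃ D, k = D + 1 := ⟨k - 1, by omega⟩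
  obtain ⟨c, hc⟩ := exists_rows n D
  obtain ⟨f, h1, h2⟩ := frame_of_rows hn hc
  have h3 := Nat.digit_sum_le 2 D
  obtain ⟨e⟩ : Nonempty (Fin (n + 3 * (D + 1) - 3 - (Nat.digits 2 (D + 1 - 1)).sum) ≃
      (Fin n ⊕ Fin (D + (2 * D - (Nat.digits 2 D).sum)))) :=
    Fintype.card_eq.1 (by
      simp only [Fintype.card_fin, Fintype.card_sum, Nat.add_sub_cancel]; omega)
  refine ⟨f ∘ e, by rw [e.surjective.range_comp, h1], fun x y hx _ hxy => h2 x y hx fun j => ?_⟩
  simpa using hxy (e.symm j)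

end Pool.Agent.Results.MP_32bf8a_an.BinaryFrame
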