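import Pool.Agent.P.MP_32bf8a_an.SP.Frame

/-!
For all `2 ≤ k ≤ n` and `N ≥ 4 k - 3` there are `N` vectors allowing `k`-sparse complex phase
retrieval; they span the space if `n ≤ N`.
-/

namespace Pool.Agent.Results.MP_32bf8a_an.SparseFrame

/-- `f` allows `k`-sparse phase retrieval: vectors with at most `k` nonzero coordinates and the
same moduli of frame coefficients agree up to a global phase. -/
def SparsePR {n N : ℕ} (k : ℕ) (f : Fin N → EuclideanSpace ℂ (Fin n)) : Prop :=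
  ∀ x y : EuclideanSpace ℂ (Fin n), (Finset.univ.filter fun i => x i ≠ 0).card ≤ k →
    (Finset.univ.filter fun i => y i ≠ 0).card ≤ k →
    (∀ j, ‖inner ℂ (f j) x‖ = ‖inner ℂ (f j) y‖) → ∃ c : ℂ, ‖c‖ = 1 ∧ x = c • y

theorem result (n k N : ℕ) (hk : 2 ≤ k) (hn : k ≤ n) (hN : 4 * k - 3 ≤ N) :
    ∃ f : Fin N → EuclideanSpace ℂ (Fin n),
      SparsePR k f ∧ (n ≤ N → Submodule.span ℂ (Set.range f) = ⊤) := by
  obtain ⟨D, rfl⟩ : ∃ D, k = D + 1 := ⟨k - 1, by omega⟩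
  obtain ⟨A, h1, h2⟩ := Pool.Agent.P.MP_32bf8a_an.SP.rows (D := D) (by omega) hn
  have e : ∀ (j : ℕ) (x : EuclideanSpace ℂ (Fin n)),
      inner ℂ (WithLp.toLp 2 fun a => starRingEnd ℂ (A j a)) x = ∑ a, A j a * x a := fun j x => by
    simp [PiLp.inner_apply, mul_comm]
  refine ⟨fun j => WithLp.toLp 2 fun a => starRingEnd ℂ (A j a), fun x y hx hy h => ?_, fun h => ?_⟩
  · obtain ⟨c, c1, c2⟩ := h1 x.ofLp y.ofLp hx hy fun j hj => by
      simpa only [e] using h ⟨j, by omega⟩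
    exact ⟨c, c1, PiLp.ext fun i => congrFun c2 i⟩
  · refine Submodule.orthogonal_eq_bot_iff.1 ((Submodule.eq_bot_iff _).2 fun x hx => ?_)
    exact PiLp.ext fun i => congrFun (h2 N (by omega) h x.ofLp fun j hj => (e j x).symm.trans
      (hx _ (Submodule.subset_span ⟨⟨j, hj⟩, rfl⟩))) i

end Pool.Agent.Results.MP_32bf8a_an.SparseFrame
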