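import Pool.Agent.P.MP_32bf8a_an.Main

/-!
The least size of a frame allowing 2-sparse complex phase retrieval.
-/

namespace Pool.Agent.Results.MP_32bf8a_an.TwoSparse

/-- `f` allows `k`-sparse phase retrieval: vectors with at most `k` nonzero coordinates and the
same moduli of frame coefficients agree up to a global phase. -/
def SparsePR {n N : ℕ} (k : ℕ) (f : Fin N → EuclideanSpace ℂ (Fin n)) : Prop :=
  ∀ x y : EuclideanSpace ℂ (Fin n), (Finset.univ.filter fun i => x i ≠ 0).card ≤ k →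
    (Finset.univ.filter fun i => y i ≠ 0).card ≤ k →
    (∀ j, ‖inner ℂ (f j) x‖ = ‖inner ℂ (f j) y‖) → ∃ c : ℂ, ‖c‖ = 1 ∧ x = c • y

open Pool.Agent.P.MP_32bf8a_an in
theorem result (n : ℕ) (hn : 2 ≤ n) :
    IsLeast {N : ℕ | ∃ f : Fin N → EuclideanSpace ℂ (Fin n),
      Submodule.span ℂ (Set.range f) = ⊤ ∧ SparsePR 2 f} (if n = 2 then 4 else max n 5) := by
  split_ifs with h
  · subst h
    exact ⟨upper_two, fun N ⟨f, _, h2⟩ => lower_four le_rfl h2⟩
  · exact ⟨upper hn, fun N ⟨f, h1, h2⟩ => max_le (lower_span h1) (lower_five (by omega) h2)⟩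

end Pool.Agent.Results.MP_32bf8a_an.TwoSparse
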